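import Pool.Agent.Lib.MP_fce888_co.C.Ifc

set_option autoImplicit false

/-!
# MP_fce888_co, section C: assembly of `CStatement` from the blocks
-/

namespace Pool.Agent.Lib.MP_fce888_co

open Finset
open scoped Classical

variable {V : Type} [Fintype V]

theorem GoodCirc.isCirc {G : SimpleGraph V} {L r : ℕ} {D : Finset (Sym2 V)}
    (h : GoodCirc G L r D) : IsCirc G D := by
  obtain ⟨m, γ, h1, -⟩ := h.cyc
  exact ⟨m, γ, h1⟩

theorem IsCyc.vs_card_le {G : SimpleGraph V} {D : Finset (Sym2 V)} {m : ℕ} {γ : ℤ → V}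
    (h : IsCyc G D m γ) : (vs D).card ≤ m := by
  obtain ⟨h3, hinj, hadj, hD⟩ := h
  have hsub : vs D ⊆ (range m).image fun i : ℕ => γ (i : ℤ) := by
    intro v hv
    simp only [vs, mem_filter, mem_univ, true_and] at hv
    obtain ⟨g, hg, hvg⟩ := hv
    rw [hD] at hg
    simp only [mem_image, mem_range] at hg ⊢
    obtain ⟨i, hi, rfl⟩ := hg
    rcases Sym2.mem_iff.1 hvg with h | h
    · exact ⟨i, hi, h.symm⟩
    · by_cases hi' : i + 1 = m
      · refine ⟨0, by omega, ?_⟩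
        rw [h, hinj]
        subst hi'
        refine ⟨-1, ?_⟩
        push_cast
        ring
      · refine ⟨i + 1, by omega, ?_⟩
        rw [h]
        push_cast
        rfl
  refine (card_le_card hsub).trans ?_
  refine card_image_le.trans ?_
  rw [card_range]

theorem GoodCirc.vs_card_le {G : SimpleGraph V} {L r : ℕ} {D : Finset (Sym2 V)}
    (h : GoodCirc G L r D) : (vs D).card ≤ 2 * L := by
  obtain ⟨m, γ, h1, -, h2, -⟩ := h.cyc
  exact h1.vs_card_le.trans h2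

/-- The assembly of 4.5-4.8 for a generic index type (so that all instances are classical). -/
theorem c_middle (hSel : SelStatement) (hLaw : LawStatement) (hPlant : PlantStatement)
    (hTree : TreeStatement)
    (hAcy : ∀ (V : Type) [Fintype V] (G : SimpleGraph V) (T : Finset (Sym2 V)), IsSpT G T → Acy G T)
    (K N κ a : ℕ) (Cs : ℝ) (s Rm r1 r2 tc r4 ρ : ℕ) (LT ε0 ε2 ε3 η η' : ℝ)
    (V : Type) [Fintype V] (G : SimpleGraph V) (hconn : G.Connected)
    (hcub : ∀ v, (G.neighborSet v).ncard = 3)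
    (num : Num K N κ a Cs (Fintype.card V) s Rm r1 r2 tc r4 ρ LT ε0 ε2 ε3 η η')
    (GG : Finset (Finset (Sym2 V))) (μ : Finset (Sym2 V) → ℝ)
    (hMu : Mu G (rr (Fintype.card V)) ((lam (Fintype.card V) : ℝ) ^ a) GG μ)
    (X : Type) [Fintype X] (σ : Finset (Sym2 V) → Finset X)
    (hM : Fintype.card X ≤ K * Fintype.card V)
    (Th C' C1 C2 : Finset (Sym2 V)) (e1 e2 : Sym2 V) (A A3 B : Finset X) (Z : X → Finset V)
    (F : X → Finset (Finset (Sym2 V))) (hF : ∀ x, ∀ D ∈ F x, D ∈ GG ∧ x ∈ σ D)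
    (tri : Tri G (LL (Fintype.card V)) (rr (Fintype.card V)) GG Th C' C1 C2 e1 e2)
    (hAB : Disjoint A B) (hs : A.card + B.card ≤ s)
    (cand : Cand G (rr (Fintype.card V)) r2 tc (3 * κ) Th A A3 Z)
    (hRm : ∀ x ∈ A3, (Z x).card ≤ Rm)
    (hA : ∀ x ∈ A, ∀ z ∈ Z x, ∃ S f, (∀ D ∈ S, D ∈ GG ∧ x ∈ σ D) ∧
      LawA G (rr (Fintype.card V)) ((lam (Fintype.card V) : ℝ) ^ a / ε3) e1 e2 z S f)
    (hB : ∀ x ∈ B, ∃ S f, (∀ D ∈ S, D ∈ GG ∧ x ∈ σ D) ∧ LawB (ε2 / ε0) S f)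
    (hall : ∀ x ∈ σ C', LT / Fintype.card V ≤ ∑ D ∈ F x, μ D ∨
          x ∈ A ∨ x ∈ B ∨ x ∈ σ C1 ∨ x ∈ σ C2) :
    ∃ T, IsSpT G T ∧ 2 ≤ (C' \ T).card ∧ ∀ x ∈ σ C', ∃ D, IsCirc G D ∧ (D \ T).card = 1 ∧ x ∈ σ D := by
  have hlam1 : (1 : ℝ) ≤ (lam (Fintype.card V) : ℝ) ^ a := by
    apply one_le_pow₀
    have := num.lam4
    exact_mod_cast (by omega : 1 ≤ lam (Fintype.card V))
  -- selection
  have hsum : (∑ x ∈ A3, ((Z x).card : ℝ)) ≤ (s : ℝ) * Rm := by
    have h1 : (∑ x ∈ A3, ((Z x).card : ℝ)) ≤ ∑ x ∈ A3, (Rm : ℝ) :=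
      sum_le_sum fun x hx => by exact_mod_cast hRm x hx
    refine h1.trans ?_
    rw [sum_const, nsmul_eq_mul]
    have h2 : A3.card ≤ s := by
      have := card_le_card cand.sub
      omega
    have h3 : (A3.card : ℝ) ≤ s := by exact_mod_cast h2
    exact mul_le_mul_of_nonneg_right h3 (Nat.cast_nonneg _)
  have hsum0 : (0 : ℝ) ≤ ∑ x ∈ A3, ((Z x).card : ℝ) := sum_nonneg fun _ _ => Nat.cast_nonneg _
  have hpow0 : (0 : ℝ) ≤ (1 - (1 / 4 : ℝ) ^ (3 * κ)) ^ (ρ / (tc + 1)) := by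
    apply pow_nonneg
    have : (1 / 4 : ℝ) ^ (3 * κ) ≤ 1 := pow_le_one₀ (by norm_num) (by norm_num)
    linarith
  obtain ⟨z, cl, hz, clust⟩ := hSel V G hconn hcub (rr (Fintype.card V)) r2 tc (3 * κ) ρ Th
    X A A3 Z cand num.tcr2 num.sel (by
      refine lt_of_le_of_lt ?_ num.sel'
      exact mul_le_mul_of_nonneg_right (pow_le_pow_left₀ hsum0 hsum 2) hpow0)
  -- laws
  have hlaws : ∀ x : X, ∃ (S : Finset (Finset (Sym2 V))) (f : Finset (Sym2 V) → ℝ),
      ((x ∈ A ∪ B) → ∀ D ∈ S, D ∈ GG ∧ x ∈ σ D) ∧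
      (x ∈ A → LawA G (rr (Fintype.card V)) ((lam (Fintype.card V) : ℝ) ^ a / ε3) e1 e2 (z x) S f) ∧
      (x ∈ B → LawB (ε2 / ε0) S f) := by
    intro x
    by_cases hxA : x ∈ A
    · obtain ⟨S, f, h1, h2⟩ := hA x hxA (z x) (hz x hxA)
      refine ⟨S, f, fun _ => h1, fun _ => h2, fun h => ?_⟩
      exact absurd h (disjoint_left.1 hAB hxA)
    · by_cases hxB : x ∈ B
      · obtain ⟨S, f, h1, h2⟩ := hB x hxB
        exact ⟨S, f, fun _ => h1, fun h => absurd h hxA, fun _ => h2⟩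
      · refine ⟨∅, 0, fun h => ?_, fun h => absurd h hxA, fun h => absurd h hxB⟩
        rcases mem_union.1 h with h | h
        · exact absurd h hxA
        · exact absurd h hxB
  choose S f hSf hSA hSB using hlaws
  have hT0 : (0 : ℝ) ≤ (lam (Fintype.card V) : ℝ) ^ a / ε3 :=
    div_nonneg (by positivity) num.ε3pos.le
  have hLL : 1 ≤ LL (Fintype.card V) := by
    simp only [LL]
    omega
  have hnum : (s : ℝ) * (4 * LL (Fintype.card V)) * (3 * 2 ^ r4) *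
      ((lam (Fintype.card V) : ℝ) ^ a / ε3 * (1 / 2) ^ ((r2 + tc - r4) / 2)) +
        (s : ℝ) ^ 2 * (2 * (2 * LL (Fintype.card V))) * (3 * 2 ^ r4) *
          ((lam (Fintype.card V) : ℝ) ^ a / ε3 * (1 / 2) ^ ((tc - r4) / 4)) +
        (s : ℝ) * (3 * 2 ^ r4) * (ε2 / ε0) *
          (4 * LL (Fintype.card V) + 2 * LL (Fintype.card V) * s) < 1 := by
    have h1 := num.law1
    have h2 := num.law2
    have h3 := num.law3
    linarith
  have hABs : (A ∪ B).card ≤ s := (card_union_le _ _).trans hs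
  obtain ⟨D, hD, k1, k2, k3, k3'⟩ := hLaw V G hconn hcub (LL (Fintype.card V))
    (rr (Fintype.card V)) tc (r2 + tc) r4 ρ s ((lam (Fintype.card V) : ℝ) ^ a / ε3) (ε2 / ε0) Th
    X (Option X) A B z cl none S f hAB hABs tri.card
    (fun x hx D hD => (tri.good D ((hSf x hx) D hD).1).vs_card_le)
    (fun x hx => by
      rcases mem_union.1 hx with h | h
      · exact (hSA x h).law
      · exact (hSB x h).law)
    (fun x hx => (hSA x hx).tau) (fun x hx => (hSB x hx).eps) clust.c3 clust.c4 hT0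
    (div_nonneg num.ε2pos.le num.ε0pos.le) (by have := num.r4tc; omega) num.r3ρ num.r4tc
    (by have := num.r3ρ; omega) num.ρr hnum
  have hDG : ∀ x ∈ A ∪ B, D x ∈ GG := fun x hx => (hSf x hx _ (hD x hx)).1
  have hDσ : ∀ x ∈ A ∪ B, x ∈ σ (D x) := fun x hx => (hSf x hx _ (hD x hx)).2
  -- planted circuits
  have hU : (vGam Th (A ∪ B) D).card ≤
      4 * LL (Fintype.card V) + 2 * LL (Fintype.card V) * s := by
    refine (card_union_le _ _).trans (Nat.add_le_add tri.card ?_)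
    refine (card_biUnion_le_card_mul _ _ (2 * LL (Fintype.card V)) fun x hx =>
      (tri.good _ (hDG x hx)).vs_card_le).trans ?_
    rw [mul_comm]
    exact Nat.mul_le_mul_left _ hABs
  obtain ⟨P, pp, hP⟩ := hPlant V G hconn hcub (LL (Fintype.card V)) (rr (Fintype.card V)) r4 s K
    ((lam (Fintype.card V) : ℝ) ^ a) LT GG μ Th C' C1 C2 e1 e2 tri hMu X (A ∪ B) D
    (vGam Th (A ∪ B) D) hDG hABs hU X
    (univ.filter fun y : X => LT / Fintype.card V ≤ ∑ D ∈ F y, μ D) F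
    ((card_le_univ _).trans hM)
    (fun y _ D hD => (hF y D hD).1) (fun y hy => (mem_filter.1 hy).2) hlam1 hLL num.r4r num.lam4 num.nK
    num.pl1 num.pl2 num.pl3
  -- the tree
  have hin : TreeIn G (LL (Fintype.card V)) (rr (Fintype.card V)) ρ (r2 + tc) r4 ρ Th e1 e2 A B D z cl
      none P :=
    { th_edges := tri.edges
      th_acy := tri.acy
      th_nt := tri.nt
      disj := hAB
      good := fun x hx => tri.good _ (hDG x hx)
      z_mem := fun x hx => (hSA x hx).centre _ (hD x (mem_union.2 (Or.inl hx)))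
      e_notMem := fun x hx => ⟨(hSA x hx).e1n _ (hD x (mem_union.2 (Or.inl hx))),
        (hSA x hx).e2n _ (hD x (mem_union.2 (Or.inl hx)))⟩
      cl_ne := clust.c2
      cl_st := fun x hx hcl => by
        obtain ⟨w, hw, h⟩ := clust.c1 x hx hcl
        exact ⟨w, hw, by rw [SimpleGraph.dist_comm]; exact h⟩
      K1 := k1
      K2 := k2
      K3t := k3
      K3d := k3'
      P_good := fun E hE => tri.good _ (pp.mem E hE)
      P_e := fun E hE => ⟨pp.e1n E hE, pp.e2n E hE⟩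
      P_disj := pp.disj
      P_near := pp.ok
      P_one := pp.one }
  obtain ⟨T, hT, hThT, hDT, hPT⟩ := hTree V G hconn (LL (Fintype.card V))
    (rr (Fintype.card V)) ρ (r2 + tc) r4 ρ ⟨num.r4_pos, num.tree, num.treeL⟩ Th e1 e2 X
    (Option X) A B D z cl none P hin
  -- fundamental circuits and `C'`
  have hmemT : ∀ g ∈ Th, g ≠ e1 → g ≠ e2 → g ∈ T := by
    intro g hg h1 h2
    exact hThT (by simp [hg, h1, h2])
  have hacT := hAcy V G T hT
  have he1 : e1 ∉ T := by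
    intro h
    refine hacT C1 ?_ (tri.good _ tri.memC1).isCirc
    intro g hg
    by_cases h1 : g = e1
    · rw [h1]; exact h
    · exact hmemT g (tri.subC1 hg) h1 (fun h2 => tri.e2C1 (h2 ▸ hg))
  have he2 : e2 ∉ T := by
    intro h
    refine hacT C2 ?_ (tri.good _ tri.memC2).isCirc
    intro g hg
    by_cases h1 : g = e2
    · rw [h1]; exact h
    · exact hmemT g (tri.subC2 hg) (fun h2 => tri.e1C2 (h2 ▸ hg)) h1
  have hC'T : C' \ T = {e1, e2} := by
    ext g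
    simp only [mem_sdiff, mem_insert, mem_singleton]
    constructor
    · rintro ⟨hg, hgT⟩
      by_contra hcon
      push Not at hcon
      exact hgT (hmemT g (tri.subC hg) hcon.1 hcon.2)
    · rintro (rfl | rfl)
      · exact ⟨tri.e1C, he1⟩
      · exact ⟨tri.e2C, he2⟩
  have hC1T : C1 \ T = {e1} := by
    ext g
    simp only [mem_sdiff, mem_singleton]
    constructor
    · rintro ⟨hg, hgT⟩
      by_contra hcon
      exact hgT (hmemT g (tri.subC1 hg) hcon (fun h => tri.e2C1 (h ▸ hg)))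
    · rintro rfl
      exact ⟨tri.e1C1, he1⟩
  have hC2T : C2 \ T = {e2} := by
    ext g
    simp only [mem_sdiff, mem_singleton]
    constructor
    · rintro ⟨hg, hgT⟩
      by_contra hcon
      exact hgT (hmemT g (tri.subC2 hg) (fun h => tri.e1C2 (h ▸ hg)) hcon)
    · rintro rfl
      exact ⟨tri.e2C2, he2⟩
  refine ⟨T, hT, by rw [hC'T, card_pair tri.ne], ?_⟩
  intro x hx
  have hDT' : ∀ x, (x ∈ A ∨ x ∈ B) → ∃ D, IsCirc G D ∧ (D \ T).card = 1 ∧ x ∈ σ D := by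
    intro x hx
    have hx' : x ∈ A ∪ B := mem_union.2 hx
    exact ⟨D x, (tri.good _ (hDG x hx')).isCirc, hDT x hx', hDσ x hx'⟩
  rcases hall x hx with h | h | h | h | h
  · obtain ⟨D', hD'P, hD'⟩ := hP x (by simp [h])
    exact ⟨D', (tri.good _ (pp.mem _ hD'P)).isCirc, hPT _ hD'P, (hF x D' hD').2⟩
  · exact hDT' x (Or.inl h)
  · exact hDT' x (Or.inr h)
  · exact ⟨C1, (tri.good _ tri.memC1).isCirc, by rw [hC1T, card_singleton], h⟩
  · exact ⟨C2, (tri.good _ tri.memC2).isCirc, by rw [hC2T, card_singleton], h⟩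

/-- The assembly of `CStatement`. -/
theorem c_assembly (hSel : SelStatement) (hLaw : LawStatement) (hPlant : PlantStatement)
    (hTree : TreeStatement) (hCore : CoreStatement) (hNum : NumStatement)
    (hR : RamseyStatement)
    (hAcy : ∀ (V : Type) [Fintype V] (G : SimpleGraph V) (T : Finset (Sym2 V)), IsSpT G T → Acy G T) :
    CStatement := by
  intro K Cs a
  obtain ⟨κ, hκ⟩ : ∃ κ : ℕ, 4 * Cs * ((K + 1 : ℕ) : ℝ) ≤ κ := exists_nat_ge _
  have hκ1 : 1 ≤ κ + 1 := by omega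
  have hκ2 : 4 * Cs * ((K + 1 : ℕ) : ℝ) ≤ ((κ + 1 : ℕ) : ℝ) := by
    push_cast at hκ ⊢
    linarith
  obtain ⟨N, hN1, hN⟩ := hR (2 * (κ + 1))
  obtain ⟨n0, hn0⟩ := hNum (K + 1) N (κ + 1) a Cs (by omega) hN1 hκ1 hκ2
  refine ⟨N, n0, ?_⟩
  intro V _ G hn hconn hcub Ω _ Ω₀ Q e C GG μ hstr M σ hcov
  by_contra hM
  push Not at hM
  have hM' : M ≤ (K + 1) * Fintype.card V := by nlinarith
  obtain ⟨s, Rm, r1, r2, tc, r4, ρ, LT, ε0, ε2, ε3, η, η', num⟩ := hn0 _ hn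
  obtain ⟨Th, C', C1, C2, e1, e2, A, A3, B, Z, tri, hAB, hs, cand, hRm, hA, hB, hall⟩ :=
    hCore (K + 1) N (κ + 1) a Cs s Rm r1 r2 tc r4 ρ LT ε0 ε2 ε3 η η' hN1 hN V G hconn hcub num Ω Ω₀
      Q e C GG μ hstr M σ hM'
  obtain ⟨T, hT, h2, hTx⟩ := c_middle hSel hLaw hPlant hTree hAcy (K + 1) N (κ + 1) a Cs s Rm r1 r2
    tc r4 ρ LT ε0 ε2 ε3 η η' V G hconn hcub num GG μ ⟨hstr.mu_nonneg, hstr.mu_mass, hstr.lawM⟩
    (Fin M) σ (by rw [Fintype.card_fin]; exact hM') Th C' C1 C2 e1 e2 A A3 B Z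
    (fun y => GG.filter fun D => y ∈ σ D) (fun x D hD => mem_filter.1 hD) tri hAB hs cand hRm hA hB
    hall
  obtain ⟨x, hx, hx'⟩ := hcov T hT C' (tri.good _ tri.memC).isCirc h2
  obtain ⟨D, hD1, hD2, hD3⟩ := hTx x hx
  exact hx' D hD1 hD2 hD3

end Pool.Agent.Lib.MP_fce888_co
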