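import Pool.Agent.Lib.MP_fce888_co.C.Ifc

set_option autoImplicit false

/-!
# MP_fce888_co, section C: the numerical inequalities
-/

namespace Pool.Agent.Lib.MP_fce888_co.CNum

open Finset Pool.Agent.Lib.MP_fce888_co
open scoped Classical

theorem half_pow (t c : ℕ) : (1 / 2 : ℝ) ^ (c * t) = (((2 : ℝ) ^ t)⁻¹) ^ c := by
  rw [mul_comm, pow_mul, ← inv_pow]
  norm_num

theorem inner (K N κ a : ℕ) (Cs : ℝ) (hK : 1 ≤ K) (hN : 1 ≤ N) (hκ : 1 ≤ κ)
    (hC : 4 * Cs * K ≤ κ) (n t : ℕ) (ht : 1 ≤ t) (hnK : 100 * K ≤ n)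
    (hl : lam n + 1 ≤ 2 ^ t) (hq : 10 ^ 7 * (N ^ 2 * K) ≤ 2 ^ t)
    (hρ : (1000 * a + 2000) * t ≤ rr n / 10)
    (hsel : ((2 : ℝ) ^ t) ^ (40 * a + 136) * (1 - (1 / 4 : ℝ) ^ (3 * κ)) ^
      (rr n / 10 / (4 * ((51 * a + 169) * t) + 2 * ((5 * a + 16) * t) + 1)) < 1) :
    ∃ (s Rm r1 r2 tc r4 ρ : ℕ) (LT ε0 ε2 ε3 η η' : ℝ),
      Num K N κ a Cs n s Rm r1 r2 tc r4 ρ LT ε0 ε2 ε3 η η' := by
  obtain ⟨Q, hQdef⟩ : ∃ Q : ℝ, Q = (2 : ℝ) ^ t := ⟨_, rfl⟩
  rw [← hQdef] at hsel
  obtain ⟨w, hw⟩ : ∃ w : ℝ, w = Q⁻¹ := ⟨_, rfl⟩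
  have hP1 : (1 : ℝ) ≤ (N : ℝ) ^ 2 * K := by
    have h1 : 1 ≤ N ^ 2 * K := Nat.one_le_iff_ne_zero.2 (by positivity)
    exact_mod_cast h1
  obtain ⟨P, hP⟩ : ∃ P : ℝ, P = (N : ℝ) ^ 2 * K := ⟨_, rfl⟩
  rw [← hP] at hP1
  have hQP : 10 ^ 7 * P ≤ Q := by
    have h1 : ((10 ^ 7 * (N ^ 2 * K) : ℕ) : ℝ) ≤ ((2 ^ t : ℕ) : ℝ) := by exact_mod_cast hq
    push_cast at h1
    rw [hP, hQdef]
    linarith
  have hQ7 : 10 ^ 7 ≤ Q := le_trans (by linarith) hQP
  have hQ1 : 1 ≤ Q := by linarith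
  have hQ0 : 0 < Q := by linarith
  have hw0 : 0 < w := by rw [hw]; exact inv_pos.2 hQ0
  have hQw : Q * w = 1 := by rw [hw]; exact mul_inv_cancel₀ hQ0.ne'
  have hpw : ∀ c : ℕ, (1 / 2 : ℝ) ^ (c * t) = w ^ c := fun c => by rw [half_pow, hw, hQdef]
  have hQwp : ∀ m : ℕ, Q ^ m * w ^ m = 1 := fun m => by rw [← mul_pow, hQw, one_pow]
  have hPw : P * w ≤ 1 / 10 ^ 7 := by
    have h1 := mul_le_mul_of_nonneg_right hQP hw0.le
    rw [hQw] at h1
    linarith
  have hw7 : w ≤ 1 / 10 ^ 7 := by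
    have h1 := mul_le_mul_of_nonneg_right hQ7 hw0.le
    rw [hQw] at h1
    linarith
  have hLL : (LL n : ℝ) ≤ 3 * Q := by
    have h1 : ((lam n + 1 : ℕ) : ℝ) ≤ ((2 ^ t : ℕ) : ℝ) := by exact_mod_cast hl
    push_cast at h1
    unfold LL
    push_cast
    rw [hQdef]
    linarith
  have hLL0 : (0 : ℝ) ≤ LL n := by positivity
  have hlam : (lam n : ℝ) ≤ Q := by
    have h1 : ((lam n + 1 : ℕ) : ℝ) ≤ ((2 ^ t : ℕ) : ℝ) := by exact_mod_cast hl
    push_cast at h1
    rw [hQdef]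
    linarith
  have hlam0 : (0 : ℝ) ≤ lam n := by positivity
  have hla : (lam n : ℝ) ^ a ≤ Q ^ a := pow_le_pow_left₀ hlam0 hlam a
  have hla0 : (0 : ℝ) ≤ (lam n : ℝ) ^ a := by positivity
  -- parameters
  obtain ⟨s, hs⟩ : ∃ s : ℕ, s = 20 * (N ^ 2 * K) * (2 ^ t) ^ (2 * a + 5) := ⟨_, rfl⟩
  have hsR : (s : ℝ) = 20 * P * Q ^ (2 * a + 5) := by
    rw [hs, hP, hQdef]; push_cast; ring
  have hs6 : (s : ℝ) ≤ Q ^ (2 * a + 6) := by
    rw [hsR]
    calc 20 * P * Q ^ (2 * a + 5) ≤ Q * Q ^ (2 * a + 5) := by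
          apply mul_le_mul_of_nonneg_right _ (by positivity)
          linarith
      _ = Q ^ (2 * a + 6) := by ring
  have hs1 : (1 : ℝ) ≤ s := by
    rw [hsR]
    have h1 : 1 ≤ Q ^ (2 * a + 5) := one_le_pow₀ hQ1
    exact one_le_mul_of_one_le_of_one_le (by linarith) h1
  have hs0 : (0 : ℝ) ≤ s := by linarith
  have hW : 4 * (LL n : ℝ) + 2 * LL n * s ≤ Q ^ (2 * a + 8) := by
    have h1 : (LL n : ℝ) ≤ LL n * s := le_mul_of_one_le_right hLL0 hs1
    have h2 : (LL n : ℝ) * s ≤ (3 * Q) * Q ^ (2 * a + 6) :=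
      mul_le_mul hLL hs6 hs0 (by positivity)
    calc 4 * (LL n : ℝ) + 2 * LL n * s ≤ 6 * (LL n * s) := by linarith
      _ ≤ 6 * ((3 * Q) * Q ^ (2 * a + 6)) := by linarith
      _ = 18 * Q ^ (2 * a + 7) := by ring
      _ ≤ Q * Q ^ (2 * a + 7) := mul_le_mul_of_nonneg_right (by linarith) (by positivity)
      _ = Q ^ (2 * a + 8) := by ring
  have hW0 : 0 ≤ 4 * (LL n : ℝ) + 2 * LL n * s := by positivity
  obtain ⟨x4, hx4⟩ : ∃ x4 : ℕ, x4 = (5 * a + 16) * t := ⟨_, rfl⟩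
  obtain ⟨xt, hxt⟩ : ∃ xt : ℕ, xt = (51 * a + 169) * t := ⟨_, rfl⟩
  obtain ⟨x1, hx1⟩ : ∃ x1 : ℕ, x1 = (17 * a + 56) * t := ⟨_, rfl⟩
  obtain ⟨r4, hr4⟩ : ∃ r4 : ℕ, r4 = 2 * x4 := ⟨_, rfl⟩
  obtain ⟨tc, htc⟩ : ∃ tc : ℕ, tc = 4 * xt + r4 := ⟨_, rfl⟩
  obtain ⟨r1, hr1⟩ : ∃ r1 : ℕ, r1 = 2 * x1 := ⟨_, rfl⟩
  obtain ⟨ρ, hρd⟩ : ∃ ρ : ℕ, ρ = rr n / 10 := ⟨_, rfl⟩
  rw [← hρd] at hρ
  rw [← hρd, ← hxt, ← hx4, ← hr4, ← htc] at hsel
  have h2r4 : (2 : ℝ) ^ r4 = Q ^ (10 * a + 32) := by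
    rw [hr4, hx4, hQdef, ← pow_mul]
    congr 1
    ring
  have hhr4 : (1 / 2 : ℝ) ^ ((r4 + 1) / 2) = w ^ (5 * a + 16) := by
    have : (r4 + 1) / 2 = x4 := by omega
    rw [this, hx4, hpw]
  have hhr1 : (1 / 2 : ℝ) ^ ((r1 + 1) / 2) = w ^ (17 * a + 56) := by
    have : (r1 + 1) / 2 = x1 := by omega
    rw [this, hx1, hpw]
  have hhtc : (1 / 2 : ℝ) ^ ((tc - r4) / 4) = w ^ (51 * a + 169) := by
    have : (tc - r4) / 4 = xt := by omega
    rw [this, hxt, hpw]
  have hhtc2 : (1 / 2 : ℝ) ^ ((tc + tc - r4) / 2) ≤ w ^ (51 * a + 169) := by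
    rw [← hhtc]
    refine pow_le_pow_of_le_one (by norm_num) (by norm_num) ?_
    omega
  have hr4ρ : 2 * tc + r4 ≤ ρ := by
    refine le_trans ?_ hρ
    calc 2 * tc + r4 = (438 * a + 1448) * t := by rw [htc, hr4, hx4, hxt]; ring
      _ ≤ (1000 * a + 2000) * t := Nat.mul_le_mul_right _ (by omega)
  have hρt : 2000 * t ≤ ρ := le_trans (Nat.mul_le_mul_right _ (by omega)) hρ
  have hr1ρ : r1 ≤ ρ := by
    refine le_trans ?_ hρ
    calc r1 = (34 * a + 112) * t := by rw [hr1, hx1]; ring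
      _ ≤ (1000 * a + 2000) * t := Nat.mul_le_mul_right _ (by omega)
  have hev : (77 * a + 260) * t ≤ rr n / 2 := by
    have h1 : (77 * a + 260) * t ≤ ρ := by
      exact le_trans (Nat.mul_le_mul_right _ (by omega)) hρ
    omega
  have hrr : (1 / 2 : ℝ) ^ (rr n / 2) ≤ w ^ (77 * a + 260) := by
    rw [← hpw]
    exact pow_le_pow_of_le_one (by norm_num) (by norm_num) hev
  obtain ⟨LT, hLT⟩ : ∃ LT : ℝ, LT = Q ^ (2 * a + 5) := ⟨_, rfl⟩
  obtain ⟨ε0, hε0⟩ : ∃ ε0 : ℝ, ε0 = 1 / (20 * P) := ⟨_, rfl⟩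
  obtain ⟨ε2, hε2⟩ : ∃ ε2 : ℝ, ε2 = w ^ (14 * a + 48) := ⟨_, rfl⟩
  obtain ⟨η', hη'⟩ : ∃ η' : ℝ, η' = w ^ (16 * a + 55) := ⟨_, rfl⟩
  obtain ⟨η, hη⟩ : ∃ η : ℝ, η = w ^ (36 * a + 123) := ⟨_, rfl⟩
  obtain ⟨ε3, hε3⟩ : ∃ ε3 : ℝ, ε3 = η / 2 := ⟨_, rfl⟩
  have hP0 : 0 < P := by linarith
  have hε0p : 0 < ε0 := by rw [hε0]; positivity
  have hε2p : 0 < ε2 := by rw [hε2]; positivity
  have hη'p : 0 < η' := by rw [hη']; positivity
  have hηp : 0 < η := by rw [hη]; positivity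
  have hε3p : 0 < ε3 := by rw [hε3]; positivity
  have hLTp : 0 < LT := by rw [hLT]; positivity
  have iε2 : 1 / ε2 = Q ^ (14 * a + 48) := by
    rw [hε2, hw, inv_pow, one_div, inv_inv]
  have iη' : 1 / η' = Q ^ (16 * a + 55) := by
    rw [hη', hw, inv_pow, one_div, inv_inv]
  have iη : 1 / η = Q ^ (36 * a + 123) := by
    rw [hη, hw, inv_pow, one_div, inv_inv]
  have iε3 : 1 / ε3 = 2 * Q ^ (36 * a + 123) := by
    rw [hε3, ← iη]; field_simp
  have w1 : w ≤ 1 := by linarith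
  have wle : ∀ m k : ℕ, m ≤ k → w ^ k ≤ w ^ m := fun m k h =>
    pow_le_pow_of_le_one hw0.le w1 h
  have hηη' : 2 * η < η' := by
    have h1 : η ≤ w ^ (16 * a + 56) := by rw [hη]; exact wle _ _ (by omega)
    have h2 : w ^ (16 * a + 56) = w * η' := by rw [hη']; ring
    rw [h2] at h1
    have h3 : w * η' ≤ 1 / 10 ^ 7 * η' := mul_le_mul_of_nonneg_right hw7 hη'p.le
    linarith
  have hll : 2500 * ρ ≤ lam n := by
    rw [hρd]; unfold rr; omega
  have hLTs : (N : ℝ) ^ 2 * K * LT ≤ s / 20 := by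
    rw [hsR, hLT, ← hP]; linarith
  refine ⟨s, (2 ^ t) ^ (18 * a + 62), r1, tc, tc, r4, ρ, LT, ε0, ε2, ε3, η, η', ?_⟩
  have hRm : (((2 ^ t) ^ (18 * a + 62) : ℕ) : ℝ) = Q ^ (18 * a + 62) := by
    rw [hQdef]; push_cast; rfl
  -- auxiliary bounds
  have hLLT : (LL n : ℝ) * LT ≤ 3 * Q ^ (2 * a + 6) := by
    calc (LL n : ℝ) * LT ≤ (3 * Q) * Q ^ (2 * a + 5) := by
          rw [hLT]
          exact mul_le_mul_of_nonneg_right hLL (by positivity)
      _ = 3 * Q ^ (2 * a + 6) := by ring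
  have hLLT0 : 0 ≤ (LL n : ℝ) * LT := by positivity
  exact
    { lam4 := by omega
      nK := hnK
      ε0pos := hε0p
      ε2pos := hε2p
      ε3pos := hε3p
      LTpos := hLTp
      ηη' := hηη'
      ε3η := hε3
      ε3ε2 := by
        have h1 : η ≤ ε2 := by rw [hη, hε2]; exact wle _ _ (by omega)
        have h2 : η ≤ w ^ (14 * a + 49) := by rw [hη]; exact wle _ _ (by omega)
        have h3 : w ^ (14 * a + 49) = w * ε2 := by rw [hε2]; ring
        rw [h3] at h2
        rw [hε3]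
        have h4 : w * ε2 ≤ 1 / 10 ^ 7 * ε2 := mul_le_mul_of_nonneg_right hw7 hε2p.le
        linarith
      r1r := by omega
      class_diam := by
        rw [hhr1]
        have h1 : (lam n : ℝ) ^ a * w ^ (17 * a + 56) ≤ Q ^ a * w ^ (17 * a + 56) :=
          mul_le_mul_of_nonneg_right hla (by positivity)
        have h2 : Q ^ a * w ^ (17 * a + 56) = w * η' := by
          calc Q ^ a * w ^ (17 * a + 56) = (Q ^ a * w ^ a) * (w * w ^ (16 * a + 55)) := by ring
            _ = w * η' := by rw [hQwp, one_mul, hη']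
        have h3 : w * η' ≤ 1 / 10 ^ 7 * η' := mul_le_mul_of_nonneg_right hw7 hη'p.le
        linarith
      Rmax := by
        rw [hRm]
        calc 2 * (LL n : ℝ) * LT / η' = 2 * (LL n * LT) * (1 / η') := by ring
          _ ≤ 2 * (3 * Q ^ (2 * a + 6)) * Q ^ (16 * a + 55) := by
              rw [iη']
              apply mul_le_mul_of_nonneg_right _ (by positivity)
              linarith
          _ = 6 * Q ^ (18 * a + 61) := by ring
          _ ≤ Q * Q ^ (18 * a + 61) := mul_le_mul_of_nonneg_right (by linarith) (by positivity)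
          _ = Q ^ (18 * a + 62) := by ring
      tcr2 := le_refl _
      κ1 := hκ
      κC := hC
      evb := by
        rw [hε0, ← hP]
        rw [mul_one_div, div_le_div_iff₀ (by positivity) (by norm_num)]
        linarith
      evc := hLTs
      eve := by
        rw [← hP]
        have h1 : 2 * (LL n : ℝ) * LT / ε3 ≤ 12 * Q ^ (38 * a + 129) := by
          calc 2 * (LL n : ℝ) * LT / ε3 = 2 * (LL n * LT) * (1 / ε3) := by ring
            _ ≤ 2 * (3 * Q ^ (2 * a + 6)) * (2 * Q ^ (36 * a + 123)) := by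
                rw [iε3]
                apply mul_le_mul_of_nonneg_right _ (by positivity)
                linarith
            _ = 12 * Q ^ (38 * a + 129) := by ring
        have h10 : 0 ≤ 2 * (LL n : ℝ) * LT / ε3 := by positivity
        have h2 : (2 * (LL n : ℝ) * LT / ε3) ^ 2 ≤ (12 * Q ^ (38 * a + 129)) ^ 2 :=
          pow_le_pow_left₀ h10 h1 2
        have h3 : (lam n : ℝ) ^ a * (1 / 2) ^ (rr n / 2) ≤ Q ^ a * w ^ (77 * a + 260) :=
          mul_le_mul hla hrr (by positivity) (by positivity)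
        calc P * (2 * (LL n : ℝ) * LT / ε3) ^ 2 * ((lam n : ℝ) ^ a * (1 / 2) ^ (rr n / 2))
            ≤ P * (12 * Q ^ (38 * a + 129)) ^ 2 * (Q ^ a * w ^ (77 * a + 260)) := by
              apply mul_le_mul (mul_le_mul_of_nonneg_left h2 hP0.le) h3 (by positivity)
                (by positivity)
          _ = 144 * (P * w) * w * (Q ^ (77 * a + 258) * w ^ (77 * a + 258)) := by ring
          _ = 144 * (P * w) * w := by rw [hQwp, mul_one]
          _ ≤ 144 * (1 / 10 ^ 7) * 1 := by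
              apply mul_le_mul _ w1 hw0.le (by positivity)
              linarith
          _ ≤ 1 / 100 := by norm_num
      evf := by
        rw [← hP]
        calc P * (6 * (LL n : ℝ) * LT / ε2) * η' = P * (6 * (LL n * LT) * (1 / ε2)) * η' := by
              ring
          _ ≤ P * (6 * (3 * Q ^ (2 * a + 6)) * Q ^ (14 * a + 48)) * w ^ (16 * a + 55) := by
              rw [iε2, hη']
              apply mul_le_mul_of_nonneg_right _ (by positivity)
              apply mul_le_mul_of_nonneg_left _ hP0.le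
              apply mul_le_mul_of_nonneg_right _ (by positivity)
              linarith
          _ = 18 * (P * w) * (Q ^ (16 * a + 54) * w ^ (16 * a + 54)) := by ring
          _ = 18 * (P * w) := by rw [hQwp, mul_one]
          _ ≤ 1 / 100 := by linarith
      evg := by
        rw [← hP]
        have h1 : 2 * (LL n : ℝ) * LT / η' ≤ 6 * Q ^ (18 * a + 61) := by
          calc 2 * (LL n : ℝ) * LT / η' = 2 * (LL n * LT) * (1 / η') := by ring
            _ ≤ 2 * (3 * Q ^ (2 * a + 6)) * Q ^ (16 * a + 55) := by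
                rw [iη']
                apply mul_le_mul_of_nonneg_right _ (by positivity)
                linarith
            _ = 6 * Q ^ (18 * a + 61) := by ring
        have h10 : 0 ≤ 2 * (LL n : ℝ) * LT / η' := by positivity
        have h2 : (2 * (LL n : ℝ) * LT / η') ^ 2 ≤ (6 * Q ^ (18 * a + 61)) ^ 2 :=
          pow_le_pow_left₀ h10 h1 2
        calc P * (2 * (LL n : ℝ) * LT / η') ^ 2 * η
            ≤ P * (6 * Q ^ (18 * a + 61)) ^ 2 * w ^ (36 * a + 123) := by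
              rw [hη]
              apply mul_le_mul_of_nonneg_right _ (by positivity)
              exact mul_le_mul_of_nonneg_left h2 hP0.le
          _ = 36 * (P * w) * (Q ^ (36 * a + 122) * w ^ (36 * a + 122)) := by ring
          _ = 36 * (P * w) := by rw [hQwp, mul_one]
          _ ≤ 1 / 100 := by linarith
      sel := by omega
      sel' := by
        rw [hRm]
        have hδ : 0 ≤ 1 - (1 / 4 : ℝ) ^ (3 * κ) := by
          have : (1 / 4 : ℝ) ^ (3 * κ) ≤ 1 := pow_le_one₀ (by norm_num) (by norm_num)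
          linarith
        refine lt_of_le_of_lt ?_ hsel
        have h1 : (s : ℝ) * Q ^ (18 * a + 62) ≤ Q ^ (20 * a + 68) := by
          calc (s : ℝ) * Q ^ (18 * a + 62) ≤ Q ^ (2 * a + 6) * Q ^ (18 * a + 62) :=
                mul_le_mul_of_nonneg_right hs6 (by positivity)
            _ = Q ^ (20 * a + 68) := by ring
        have h2 : ((s : ℝ) * Q ^ (18 * a + 62)) ^ 2 ≤ (Q ^ (20 * a + 68)) ^ 2 :=
          pow_le_pow_left₀ (by positivity) h1 2
        have h3 : (Q ^ (20 * a + 68)) ^ 2 = Q ^ (40 * a + 136) := by ring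
        rw [h3] at h2
        exact mul_le_mul_of_nonneg_right h2 (pow_nonneg hδ _)
      r4tc := by omega
      r3ρ := by omega
      ρr := by omega
      law1 := by
        rw [h2r4]
        have h1 : (lam n : ℝ) ^ a / ε3 * (1 / 2) ^ ((tc + tc - r4) / 2) ≤
            Q ^ a * (2 * Q ^ (36 * a + 123)) * w ^ (51 * a + 169) := by
          rw [div_eq_mul_one_div, iε3]
          exact mul_le_mul (mul_le_mul_of_nonneg_right hla (by positivity)) hhtc2 (by positivity)
            (by positivity)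
        calc (s : ℝ) * (4 * LL n) * (3 * Q ^ (10 * a + 32)) *
              ((lam n : ℝ) ^ a / ε3 * (1 / 2) ^ ((tc + tc - r4) / 2))
            ≤ Q ^ (2 * a + 6) * (4 * (3 * Q)) * (3 * Q ^ (10 * a + 32)) *
              (Q ^ a * (2 * Q ^ (36 * a + 123)) * w ^ (51 * a + 169)) := by
              apply mul_le_mul _ h1 (by positivity) (by positivity)
              apply mul_le_mul_of_nonneg_right _ (by positivity)
              apply mul_le_mul hs6 _ (by positivity) (by positivity)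
              linarith
          _ = 72 * w * w ^ (2 * a + 6) * (Q ^ (49 * a + 162) * w ^ (49 * a + 162)) := by ring
          _ = 72 * w * w ^ (2 * a + 6) := by rw [hQwp, mul_one]
          _ ≤ 72 * (1 / 10 ^ 7) * 1 := by
              apply mul_le_mul _ _ (by positivity) (by positivity)
              · linarith
              · exact pow_le_one₀ hw0.le w1
          _ ≤ 1 / 4 := by norm_num
      law2 := by
        rw [h2r4, hhtc]
        have h1 : (lam n : ℝ) ^ a / ε3 * w ^ (51 * a + 169) ≤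
            Q ^ a * (2 * Q ^ (36 * a + 123)) * w ^ (51 * a + 169) := by
          rw [div_eq_mul_one_div, iε3]
          exact mul_le_mul_of_nonneg_right (mul_le_mul_of_nonneg_right hla (by positivity))
            (by positivity)
        have h2 : (s : ℝ) ^ 2 ≤ (Q ^ (2 * a + 6)) ^ 2 := pow_le_pow_left₀ hs0 hs6 2
        calc (s : ℝ) ^ 2 * (2 * (2 * LL n)) * (3 * Q ^ (10 * a + 32)) *
              ((lam n : ℝ) ^ a / ε3 * w ^ (51 * a + 169))
            ≤ (Q ^ (2 * a + 6)) ^ 2 * (2 * (2 * (3 * Q))) * (3 * Q ^ (10 * a + 32)) *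
              (Q ^ a * (2 * Q ^ (36 * a + 123)) * w ^ (51 * a + 169)) := by
              apply mul_le_mul _ h1 (by positivity) (by positivity)
              apply mul_le_mul_of_nonneg_right _ (by positivity)
              apply mul_le_mul h2 _ (by positivity) (by positivity)
              linarith
          _ = 72 * w * (Q ^ (51 * a + 168) * w ^ (51 * a + 168)) := by ring
          _ = 72 * w := by rw [hQwp, mul_one]
          _ ≤ 1 / 4 := by linarith
      law3 := by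
        rw [h2r4]
        have h1 : ε2 / ε0 ≤ w ^ (14 * a + 48) * Q := by
          rw [hε0, hε2, div_div_eq_mul_div, div_one]
          apply mul_le_mul_of_nonneg_left _ (by positivity)
          linarith
        calc (s : ℝ) * (3 * Q ^ (10 * a + 32)) * (ε2 / ε0) * (4 * LL n + 2 * LL n * s)
            ≤ Q ^ (2 * a + 6) * (3 * Q ^ (10 * a + 32)) * (w ^ (14 * a + 48) * Q) *
              Q ^ (2 * a + 8) := by
              apply mul_le_mul _ hW hW0 (by positivity)
              apply mul_le_mul _ h1 (by positivity) (by positivity)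
              exact mul_le_mul_of_nonneg_right hs6 (by positivity)
          _ = 3 * w * (Q ^ (14 * a + 47) * w ^ (14 * a + 47)) := by ring
          _ = 3 * w := by rw [hQwp, mul_one]
          _ ≤ 1 / 4 := by linarith
      r4r := by omega
      pl1 := by
        rw [hhr4]
        push_cast
        have h1 : (4 * (LL n : ℝ) + 2 * LL n * s) ^ 2 ≤ (Q ^ (2 * a + 8)) ^ 2 :=
          pow_le_pow_left₀ hW0 hW 2
        have h2 : (4 * (LL n : ℝ) + 2 * LL n * s) ^ 2 * (lam n : ℝ) ^ a * w ^ (5 * a + 16) ≤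
            1 := by
          calc (4 * (LL n : ℝ) + 2 * LL n * s) ^ 2 * (lam n : ℝ) ^ a * w ^ (5 * a + 16)
              ≤ (Q ^ (2 * a + 8)) ^ 2 * Q ^ a * w ^ (5 * a + 16) := by
                apply mul_le_mul_of_nonneg_right _ (by positivity)
                exact mul_le_mul h1 hla hla0 (by positivity)
            _ = Q ^ (5 * a + 16) * w ^ (5 * a + 16) := by ring
            _ = 1 := hQwp _
        have h3 : 1 ≤ Q ^ a := one_le_pow₀ hQ1
        have h4 : Q ^ a * Q ≤ LT := by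
          calc Q ^ a * Q = Q ^ (a + 1) := by ring
            _ ≤ Q ^ (2 * a + 5) := pow_le_pow_right₀ hQ1 (by omega)
            _ = LT := hLT.symm
        have h5 : Q ^ a * 10 ^ 7 ≤ Q ^ a * Q := mul_le_mul_of_nonneg_left hQ7 (by positivity)
        linarith
      pl2 := by
        calc 1000 * (LL n : ℝ) * (lam n : ℝ) ^ a * lam n
            ≤ 1000 * (3 * Q) * Q ^ a * Q := by
              apply mul_le_mul _ hlam hlam0 (by positivity)
              apply mul_le_mul _ hla hla0 (by positivity)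
              linarith
          _ = 3000 * Q ^ (a + 2) := by ring
          _ ≤ Q * Q ^ (a + 2) := mul_le_mul_of_nonneg_right (by linarith) (by positivity)
          _ = Q ^ (a + 3) := by ring
          _ ≤ Q ^ (2 * a + 5) := pow_le_pow_right₀ hQ1 (by omega)
          _ = LT := hLT.symm
      pl3 := by
        have h1 : 100 * (LL n : ℝ) * (lam n : ℝ) ^ a * lam n ≤ 300 * Q ^ (a + 2) := by
          calc 100 * (LL n : ℝ) * (lam n : ℝ) ^ a * lam n
              ≤ 100 * (3 * Q) * Q ^ a * Q := by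
                apply mul_le_mul _ hlam hlam0 (by positivity)
                apply mul_le_mul _ hla hla0 (by positivity)
                linarith
            _ = 300 * Q ^ (a + 2) := by ring
        have h2 : (100 * (LL n : ℝ) * (lam n : ℝ) ^ a * lam n) ^ 2 ≤ (300 * Q ^ (a + 2)) ^ 2 :=
          pow_le_pow_left₀ (by positivity) h1 2
        calc (s : ℝ) * (100 * (LL n : ℝ) * (lam n : ℝ) ^ a * lam n) ^ 2
            ≤ (20 * P * Q ^ (2 * a + 5)) * (300 * Q ^ (a + 2)) ^ 2 := by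
              rw [hsR]
              exact mul_le_mul_of_nonneg_left h2 (by positivity)
          _ = (1800000 * P) * Q ^ (4 * a + 9) := by ring
          _ ≤ Q * Q ^ (4 * a + 9) := mul_le_mul_of_nonneg_right (by linarith) (by positivity)
          _ = (Q ^ (2 * a + 5)) ^ 2 := by ring
          _ = LT ^ 2 := by rw [hLT]
      r4_pos := by
        rw [hr4, hx4]
        exact Nat.one_le_iff_ne_zero.2 (by positivity)
      tree := by omega
      treeL := by unfold LL; omega }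

/-- `C * t ^ 2 ≤ 2 ^ (t - 1)` for large `t` -/
theorem sq_le_pow (C : ℕ) : ∃ t0 : ℕ, ∀ t ≥ t0, C * t ^ 2 ≤ 2 ^ (t - 1) := by
  have h := tendsto_pow_const_div_const_pow_of_one_lt 2 (r := (2 : ℝ)) (by norm_num)
  have hpos : (0 : ℝ) < 1 / (2 * (C + 1)) := by positivity
  obtain ⟨t0, ht0⟩ := Filter.eventually_atTop.1 (h.eventually (gt_mem_nhds hpos))
  refine ⟨max t0 1, fun t ht => ?_⟩
  have h1 := ht0 t (le_trans (le_max_left _ _) ht)
  have ht1 : 1 ≤ t := le_trans (le_max_right _ _) ht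
  rw [div_lt_div_iff₀ (by positivity) (by positivity)] at h1
  have h2 : (2 : ℝ) ^ t = 2 * 2 ^ (t - 1) := by
    rw [← pow_succ', Nat.sub_add_cancel ht1]
  rw [h2] at h1
  have h3 : ((C * t ^ 2 : ℕ) : ℝ) ≤ ((2 ^ (t - 1) : ℕ) : ℝ) := by
    push_cast
    have h4 : (0 : ℝ) ≤ (t : ℝ) ^ 2 := by positivity
    nlinarith
  exact_mod_cast h3

theorem num : NumStatement := by
  intro K N κ a Cs hK hN hκ hC
  -- a power of `1 - δ` below `1 / 2`
  set δ : ℝ := (1 / 4 : ℝ) ^ (3 * κ) with hδ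
  have hδ0 : 0 < δ := by positivity
  have hδ1 : δ ≤ 1 := pow_le_one₀ (by norm_num) (by norm_num)
  obtain ⟨B, hB⟩ := exists_pow_lt_of_lt_one (show (0 : ℝ) < 1 / 2 by norm_num)
    (show 1 - δ < 1 by linarith)
  set c1 : ℕ := 4 * (51 * a + 169) + 2 * (5 * a + 16) with hc1
  set C0 : ℕ := 2500 * (B * (40 * a + 137) * (c1 + 1)) + 2500 * (1000 * a + 2000) with hC0
  obtain ⟨t0, ht0⟩ := sq_le_pow C0
  obtain ⟨P0, hP0⟩ : ∃ P0 : ℕ, P0 = 10 ^ 7 * (N ^ 2 * K) := ⟨_, rfl⟩
  obtain ⟨l0, hl01, hl02⟩ : ∃ l0 : ℕ, 2 ^ t0 ≤ l0 ∧ P0 ≤ l0 :=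
    ⟨max (2 ^ t0) P0, le_max_left _ _, le_max_right _ _⟩
  refine ⟨max (2 ^ l0) (100 * K), fun n hn => ?_⟩
  have hn1 : 2 ^ l0 ≤ n := le_trans (le_max_left _ _) hn
  have hl : l0 ≤ lam n := by
    unfold lam
    exact Nat.le_log_of_pow_le (by norm_num) hn1
  have hl1 : 2 ^ t0 ≤ lam n := hl01.trans hl
  have hl2 : P0 ≤ lam n := hl02.trans hl
  have hl0 : lam n ≠ 0 := by
    have : 0 < 2 ^ t0 := by positivity
    omega
  obtain ⟨t, ht⟩ : ∃ t : ℕ, t = Nat.log 2 (lam n) + 1 := ⟨_, rfl⟩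
  have htt0 : t0 ≤ Nat.log 2 (lam n) := Nat.le_log_of_pow_le (by norm_num) hl1
  have hlt : lam n < 2 ^ t := by
    rw [ht]
    exact Nat.lt_pow_succ_log_self (by norm_num) _
  have hle : 2 ^ (t - 1) ≤ lam n := by
    rw [ht, Nat.add_sub_cancel]
    exact Nat.pow_log_le_self 2 hl0
  have hmain : C0 * t ^ 2 ≤ lam n := (ht0 t (by omega)).trans hle
  have ht1 : 1 ≤ t := by omega
  have htt : t ≤ t ^ 2 := by rw [sq]; exact Nat.le_mul_of_pos_left t (by omega)
  have hC01 : 2500 * (1000 * a + 2000) ≤ C0 := by rw [hC0]; exact Nat.le_add_left _ _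
  have hC02 : 2500 * (B * (40 * a + 137) * (c1 + 1)) ≤ C0 := by
    rw [hC0]; exact Nat.le_add_right _ _
  refine inner K N κ a Cs hK hN hκ hC n t ht1 (le_trans (le_max_right _ _) hn) hlt
    (by rw [← hP0]; exact (hl2.trans hlt.le)) ?_ ?_
  · have h1 : 2500 * (1000 * a + 2000) * t ^ 2 ≤ lam n :=
      (Nat.mul_le_mul_right _ hC01).trans hmain
    have h2 : (1000 * a + 2000) * t ≤ (1000 * a + 2000) * t ^ 2 := Nat.mul_le_mul_left _ htt
    unfold rr
    rw [Nat.div_div_eq_div_mul, Nat.le_div_iff_mul_le (by norm_num)]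
    calc (1000 * a + 2000) * t * (250 * 10) ≤ (1000 * a + 2000) * t ^ 2 * (250 * 10) :=
          Nat.mul_le_mul_right _ h2
      _ = 2500 * (1000 * a + 2000) * t ^ 2 := by ring
      _ ≤ lam n := h1
  · -- the selection inequality
    obtain ⟨m, hm⟩ : ∃ m : ℕ, m = rr n / 10 /
        (4 * ((51 * a + 169) * t) + 2 * ((5 * a + 16) * t) + 1) := ⟨_, rfl⟩
    rw [← hm]
    have hmB : B * ((40 * a + 136) * t + 1) ≤ m := by
      rw [hm, Nat.le_div_iff_mul_le (by positivity)]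
      unfold rr
      rw [Nat.div_div_eq_div_mul, Nat.le_div_iff_mul_le (by norm_num)]
      have e1 : (40 * a + 136) * t + 1 ≤ (40 * a + 137) * t := by
        calc (40 * a + 136) * t + 1 ≤ (40 * a + 136) * t + t := by omega
          _ = (40 * a + 137) * t := by ring
      have e2 : 4 * ((51 * a + 169) * t) + 2 * ((5 * a + 16) * t) + 1 ≤ (c1 + 1) * t := by
        calc 4 * ((51 * a + 169) * t) + 2 * ((5 * a + 16) * t) + 1
            ≤ 4 * ((51 * a + 169) * t) + 2 * ((5 * a + 16) * t) + t := by omega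
          _ = (c1 + 1) * t := by rw [hc1]; ring
      calc B * ((40 * a + 136) * t + 1) *
            (4 * ((51 * a + 169) * t) + 2 * ((5 * a + 16) * t) + 1) * (250 * 10)
          ≤ B * ((40 * a + 137) * t) * ((c1 + 1) * t) * (250 * 10) :=
            Nat.mul_le_mul_right _ (Nat.mul_le_mul (Nat.mul_le_mul_left _ e1) e2)
        _ = 2500 * (B * (40 * a + 137) * (c1 + 1)) * t ^ 2 := by ring
        _ ≤ C0 * t ^ 2 := Nat.mul_le_mul_right _ hC02
        _ ≤ lam n := hmain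
    have h1 : (1 - δ) ^ m ≤ (1 / 2) ^ ((40 * a + 136) * t + 1) := by
      calc (1 - δ) ^ m ≤ (1 - δ) ^ (B * ((40 * a + 136) * t + 1)) :=
            pow_le_pow_of_le_one (by linarith) (by linarith) hmB
        _ = ((1 - δ) ^ B) ^ ((40 * a + 136) * t + 1) := by rw [pow_mul]
        _ ≤ (1 / 2) ^ ((40 * a + 136) * t + 1) :=
            pow_le_pow_left₀ (pow_nonneg (by linarith) _) hB.le _
    have h2 : ((2 : ℝ) ^ t) ^ (40 * a + 136) * (1 / 2) ^ ((40 * a + 136) * t + 1) = 1 / 2 := by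
      rw [← pow_mul, pow_succ, mul_comm t, ← mul_assoc, ← mul_pow]
      norm_num
    calc ((2 : ℝ) ^ t) ^ (40 * a + 136) * (1 - δ) ^ m
        ≤ ((2 : ℝ) ^ t) ^ (40 * a + 136) * (1 / 2) ^ ((40 * a + 136) * t + 1) :=
          mul_le_mul_of_nonneg_left h1 (by positivity)
      _ = 1 / 2 := h2
      _ < 1 := by norm_num

end Pool.Agent.Lib.MP_fce888_co.CNum
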