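import Pool.Agent.Lib.MP_fce888_co.C.Ifc

set_option autoImplicit false

/-!
# MP_fce888_co, 4.3: Ramsey's theorem for triangles with many colours
-/

namespace Pool.Agent.Lib.MP_fce888_co

open Finset
open scoped Classical

/-- the numbers `R c` -/
def rmR : ℕ → ℕ
  | 0 => 2
  | c + 1 => (c + 1) * rmR c + 2

theorem rm_pos (c : ℕ) : 1 ≤ rmR c := by
  cases c with
  | zero => simp [rmR]
  | succ c => simp only [rmR]; omega

theorem rm_main {α : Type} [LinearOrder α] {κ : Type} (f : α → α → κ) :
    ∀ (c : ℕ) (S : Finset κ), S.card ≤ c → ∀ I : Finset α, rmR c ≤ I.card →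
      (∀ i ∈ I, ∀ j ∈ I, i < j → f i j ∈ S) →
      ∃ i ∈ I, ∃ j ∈ I, ∃ k ∈ I, i < j ∧ j < k ∧ f i j = f i k ∧ f j k = f i k := by
  intro c
  induction c with
  | zero =>
    intro S hS I hI hf
    exfalso
    have hS0 : S = ∅ := Finset.card_eq_zero.1 (Nat.le_zero.1 hS)
    have h1 : 1 < I.card := by
      simp only [rmR] at hI; omega
    obtain ⟨a, ha, b, hb, hab⟩ := Finset.one_lt_card.1 h1
    rcases lt_or_gt_of_ne hab with h | h
    · have := hf a ha b hb h
      rw [hS0] at this
      exact absurd this (Finset.notMem_empty _)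
    · have := hf b hb a ha h
      rw [hS0] at this
      exact absurd this (Finset.notMem_empty _)
  | succ c ih =>
    intro S hS I hI hf
    have hIne : I.Nonempty := by
      rw [← Finset.card_pos]
      simp only [rmR] at hI; omega
    set i0 := I.min' hIne with hi0
    have hi0I : i0 ∈ I := Finset.min'_mem I hIne
    have hlt : ∀ j ∈ I.erase i0, i0 < j := fun j hj =>
      lt_of_le_of_ne (Finset.min'_le I j (Finset.mem_of_mem_erase hj))
        (Finset.ne_of_mem_erase hj).symm
    have hmaps : ∀ j ∈ I.erase i0, f i0 j ∈ S := fun j hj =>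
      hf i0 hi0I j (Finset.mem_of_mem_erase hj) (hlt j hj)
    have hcard : S.card * rmR c < (I.erase i0).card := by
      rw [Finset.card_erase_of_mem hi0I]
      have h1 : S.card * rmR c ≤ (c + 1) * rmR c := Nat.mul_le_mul_right _ hS
      simp only [rmR] at hI
      omega
    obtain ⟨s, hs, hsc⟩ := Finset.exists_lt_card_fiber_of_mul_lt_card_of_maps_to hmaps hcard
    set J := (I.erase i0).filter fun j => f i0 j = s with hJ
    have hJI : ∀ j ∈ J, j ∈ I := fun j hj =>
      Finset.mem_of_mem_erase (Finset.mem_filter.1 hj).1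
    by_cases hex : ∃ j ∈ J, ∃ k ∈ J, j < k ∧ f j k = s
    · obtain ⟨j, hj, k, hk, hjk, hs'⟩ := hex
      have h1 := (Finset.mem_filter.1 hj).2
      have h2 := (Finset.mem_filter.1 hk).2
      refine ⟨i0, hi0I, j, hJI j hj, k, hJI k hk, hlt j (Finset.mem_filter.1 hj).1, hjk, ?_, ?_⟩
      · rw [h1, h2]
      · rw [hs', h2]
    · push Not at hex
      have hSe : (S.erase s).card ≤ c := by
        rw [Finset.card_erase_of_mem hs]; omega
      obtain ⟨i, hi, j, hj, k, hk, h⟩ := ih (S.erase s) hSe J hsc.le (fun a ha b hb hab =>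
        Finset.mem_erase.2 ⟨hex a ha b hb hab, hf a (hJI a ha) b (hJI b hb) hab⟩)
      exact ⟨i, hJI i hi, j, hJI j hj, k, hJI k hk, h⟩

theorem ramseyStatement : RamseyStatement := by
  intro m
  set c := Fintype.card (Finset (Fin m) × Finset (Fin m)) with hc
  refine ⟨2 * rmR c, ?_, ?_⟩
  · have := rm_pos c; omega
  · intro I hI f
    refine rm_main f c Finset.univ (le_of_eq Finset.card_univ) I (by omega) ?_
    intro i _ j _ _
    exact Finset.mem_univ _

end Pool.Agent.Lib.MP_fce888_co
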