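import Pool.Agent.Lib.MP_fce888_co.Basics
import Pool.Agent.Lib.MP_fce888_co.C.Assembly
import Pool.Agent.Lib.MP_fce888_co.C.Num
import Pool.Agent.Lib.MP_fce888_co.C.Ramsey
import Pool.Agent.Lib.MP_fce888_co.C.Core.Final
import Pool.Agent.Lib.MP_fce888_co.C45.Main
import Pool.Agent.Lib.MP_fce888_co.C45.Occ
import Pool.Agent.Lib.MP_fce888_co.C45.Geo
import Pool.Agent.Lib.MP_fce888_co.C46.Final
import Pool.Agent.Lib.MP_fce888_co.C47.Main
import Pool.Agent.Lib.MP_fce888_co.C48.Final

set_option autoImplicit false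

/-!
# MP_fce888_co, section C: the final theorem `CStatement`
-/

namespace Pool.Agent.Lib.MP_fce888_co

theorem cStatement : CStatement :=
  c_assembly (sel_of occ C45.geo) C46.law C47.plant C48.tree coreStatement CNum.num
    ramseyStatement (fun V _ G T hT => isSpT_acy V G T hT)

end Pool.Agent.Lib.MP_fce888_co
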