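import Pool.Agent.Lib.MP_fce888_co.Iface
import Pool.Agent.Lib.MP_fce888_co.C48.Defs

set_option autoImplicit false

/-!
# MP_fce888_co, section C (the core): internal interface

Paper: `/team-store/MP_fce888_h46.md`, section 4.  Owners: 4.1-4.4, numerics and assembly: helper37;
4.5: helper36; 4.6: helper34; 4.7: helper14; 4.8: helper12.

In this file `X` is the type of the rectangles (or of the medium rectangles), `Th` is the theta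
`Q_i ∪ Q_j ∪ Q_k`, `C = C_ik`, `C1 = C_ij`, `C2 = C_jk`, `e1 = e_i`, `e2 = e_k`, `r` is `r'`,
`tc, r2, r3, r4, ρ` as in the paper (`ρ = ρ5`).  `none : Option X` is the cluster `*`.
-/

namespace Pool.Agent.Lib.MP_fce888_co

open Finset
open scoped Classical

variable {V : Type} [Fintype V]

/-- the triangle found by Ramsey's theorem -/
structure Tri (G : SimpleGraph V) (L r : ℕ) (GG : Finset (Finset (Sym2 V)))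
    (Th C C1 C2 : Finset (Sym2 V)) (e1 e2 : Sym2 V) : Prop where
  good : ∀ D ∈ GG, GoodCirc G L r D
  memC : C ∈ GG
  memC1 : C1 ∈ GG
  memC2 : C2 ∈ GG
  ne : e1 ≠ e2
  e1C : e1 ∈ C
  e2C : e2 ∈ C
  e1C1 : e1 ∈ C1
  e2C1 : e2 ∉ C1
  e2C2 : e2 ∈ C2
  e1C2 : e1 ∉ C2
  subC : C ⊆ Th
  subC1 : C1 ⊆ Th
  subC2 : C2 ⊆ Th
  edges : ∀ g ∈ Th, g ∈ G.edgeSet
  card : (vs Th).card ≤ 4 * L
  acy : Acy G (Th \ {e1, e2})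
  nt : ∀ Z, IsCirc G Z → (∀ v ∈ vs Z, ∃ u ∈ vs Th, G.dist u v ≤ r) → Z ⊆ Th

/-- the weights `μ` on the good circuits -/
structure Mu (G : SimpleGraph V) (r : ℕ) (Λ : ℝ) (GG : Finset (Finset (Sym2 V)))
    (μ : Finset (Sym2 V) → ℝ) : Prop where
  nonneg : ∀ D, 0 ≤ μ D
  mass : ∑ D ∈ GG, μ D ≤ 1
  lawM : ∀ u v : V, ∑ D ∈ GG.filter (fun D => u ∈ vs D ∧ v ∈ vs D), μ D ≤
    Λ * (1 / 2) ^ (min (G.dist u v) r / 2) / Fintype.card V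

/-- `f` is a probability law on the finite set `S` of circuits -/
structure IsLaw (S : Finset (Finset (Sym2 V))) (f : Finset (Sym2 V) → ℝ) : Prop where
  nonneg : ∀ D, 0 ≤ f D
  supp : ∀ D, D ∉ S → f D = 0
  total : ∑ D ∈ S, f D = 1

/-- a law of type A with centre `z`; `τ d = T0 * (1/2) ^ (min d r / 2)` -/
structure LawA (G : SimpleGraph V) (r : ℕ) (T0 : ℝ) (e1 e2 : Sym2 V) (z : V)
    (S : Finset (Finset (Sym2 V))) (f : Finset (Sym2 V) → ℝ) : Prop where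
  law : IsLaw S f
  centre : ∀ D ∈ S, z ∈ vs D
  e1n : ∀ D ∈ S, e1 ∉ D
  e2n : ∀ D ∈ S, e2 ∉ D
  tau : ∀ u : V, ∑ D ∈ S.filter (fun D => u ∈ vs D), f D ≤
    T0 * (1 / 2) ^ (min (G.dist u z) r / 2)

/-- a law of type B -/
structure LawB (ε : ℝ) (S : Finset (Finset (Sym2 V))) (f : Finset (Sym2 V) → ℝ) : Prop where
  law : IsLaw S f
  eps : ∀ u : V, ∑ D ∈ S.filter (fun D => u ∈ vs D), f D ≤ ε

/-- Input of the selection 4.5: every `x ∈ A` has a nonempty set `Z x` of candidates.  For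
`x ∈ A \ A3` (types A1, A2) they are close to the theta; for `x ∈ A3` there are at least two of them,
far from each other. -/
structure Cand (G : SimpleGraph V) (r r2 tc κ : ℕ) (Th : Finset (Sym2 V)) {X : Type}
    (A A3 : Finset X) (Z : X → Finset V) : Prop where
  sub : A3 ⊆ A
  ne : ∀ x ∈ A, (Z x).Nonempty
  near : ∀ x ∈ A, x ∉ A3 → ∀ z ∈ Z x, ∃ w ∈ vs Th, G.dist z w ≤ r2
  two : ∀ x ∈ A3, 2 ≤ (Z x).card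
  far : ∀ x ∈ A3, ∀ z ∈ Z x, ∀ z' ∈ Z x, z ≠ z' → tc < G.dist z z'
  sum : ∑ x ∈ A3, (1 : ℝ) / ((Z x).card : ℝ) ≤ κ
  tb : ∀ x ∈ A, ∀ z ∈ Z x, ∀ Y, IsCirc G Y → ¬ ∀ u ∈ vs Y, G.dist z u ≤ r

/-- Output of the selection 4.5: the clusters. -/
structure Clust (G : SimpleGraph V) (tc r3 ρ : ℕ) (Th : Finset (Sym2 V)) {X : Type}
    (A : Finset X) (z : X → V) (cl : X → Option X) : Prop where
  c1 : ∀ x ∈ A, cl x = none → ∃ w ∈ vs Th, G.dist (z x) w ≤ r3 + ρ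
  c2 : ∀ x ∈ A, ∀ y ∈ A, cl x = cl y → cl x ≠ none → G.dist (z x) (z y) ≤ ρ
  c3 : ∀ x ∈ A, ∀ y ∈ A, G.dist (z x) (z y) ≤ tc → cl x = cl y
  c4 : ∀ x ∈ A, ∀ w ∈ vs Th, G.dist (z x) w ≤ r3 → cl x = none

/-- Output of 4.7: the planted circuits. `U = V(Γ)`. -/
structure PP (G : SimpleGraph V) (r4 : ℕ) (GG : Finset (Finset (Sym2 V))) (e1 e2 : Sym2 V)
    (U : Finset V) {X : Type} (I : Finset X) (D : X → Finset (Sym2 V))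
    (P : Finset (Finset (Sym2 V))) : Prop where
  mem : ∀ D' ∈ P, D' ∈ GG
  e1n : ∀ D' ∈ P, e1 ∉ D'
  e2n : ∀ D' ∈ P, e2 ∉ D'
  ok : ∀ D' ∈ P, ∀ u ∈ vs D', ∀ u' ∈ vs D', u ∈ U → u' ∈ U → G.dist u u' ≤ r4
  disj : ∀ D' ∈ P, ∀ D'' ∈ P, D' ≠ D'' → Disjoint (vs D') (vs D'')
  one : ∀ x ∈ I, ∀ D' ∈ P, ∀ D'' ∈ P, ¬ Disjoint (vs D') (vs (D x)) →
    ¬ Disjoint (vs D'') (vs (D x)) → D' = D''

/-- 4.5 (owner helper36): occupancy lemma, claim, clusters. -/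
def SelStatement : Prop :=
  ∀ (V : Type) [Fintype V] (G : SimpleGraph V), G.Connected →
    (∀ v, (G.neighborSet v).ncard = 3) →
    ∀ (r r2 tc κ ρ : ℕ) (Th : Finset (Sym2 V)) (X : Type) (A A3 : Finset X) (Z : X → Finset V),
      Cand G r r2 tc κ Th A A3 Z → tc ≤ r2 → ρ + 2 * tc + 5 ≤ r →
      (∑ x ∈ A3, ((Z x).card : ℝ)) ^ 2 * (1 - (1 / 4 : ℝ) ^ κ) ^ (ρ / (tc + 1)) < 1 →
      ∃ (z : X → V) (cl : X → Option X), (∀ x ∈ A, z x ∈ Z x) ∧ Clust G tc (r2 + tc) ρ Th A z cl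

/-- 4.6 (owner helper34): the independent random choice of the `D_x`; the conclusion is (K1)-(K3)
exactly as in `TreeIn`. -/
def LawStatement : Prop :=
  ∀ (V : Type) [Fintype V] (G : SimpleGraph V), G.Connected →
    (∀ v, (G.neighborSet v).ncard = 3) →
    ∀ (L r tc r3 r4 ρ s : ℕ) (T0 ε : ℝ) (Th : Finset (Sym2 V)) (X κ : Type) (A B : Finset X)
      (z : X → V) (cl : X → κ) (st : κ) (S : X → Finset (Finset (Sym2 V)))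
      (f : X → Finset (Sym2 V) → ℝ),
      Disjoint A B → (A ∪ B).card ≤ s → (vs Th).card ≤ 4 * L →
      (∀ x ∈ A ∪ B, ∀ D ∈ S x, (vs D).card ≤ 2 * L) →
      (∀ x ∈ A ∪ B, IsLaw (S x) (f x)) →
      (∀ x ∈ A, ∀ u : V, ∑ D ∈ (S x).filter (fun D => u ∈ vs D), f x D ≤
        T0 * (1 / 2) ^ (min (G.dist u (z x)) r / 2)) →
      (∀ x ∈ B, ∀ u : V, ∑ D ∈ (S x).filter (fun D => u ∈ vs D), f x D ≤ ε) →
      (∀ x ∈ A, ∀ y ∈ A, G.dist (z x) (z y) ≤ tc → cl x = cl y) →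
      (∀ x ∈ A, ∀ w ∈ vs Th, G.dist (z x) w ≤ r3 → cl x = st) →
      0 ≤ T0 → 0 ≤ ε → r4 ≤ r3 → r3 ≤ ρ + r4 → r4 ≤ tc → tc ≤ 2 * ρ + r4 → ρ ≤ r →
      (s : ℝ) * (4 * L) * (3 * 2 ^ r4) * (T0 * (1 / 2) ^ ((r3 - r4) / 2)) +
        (s : ℝ) ^ 2 * (2 * (2 * L)) * (3 * 2 ^ r4) * (T0 * (1 / 2) ^ ((tc - r4) / 4)) +
        (s : ℝ) * (3 * 2 ^ r4) * ε * (4 * L + 2 * L * s) < 1 →
      ∃ D : X → Finset (Sym2 V), (∀ x ∈ A ∪ B, D x ∈ S x) ∧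
        (∀ x ∈ A, ∀ u ∈ vs (D x), ∀ w ∈ vs Th, G.dist u w ≤ r4 →
          cl x = st ∧ G.dist u (z x) ≤ ρ) ∧
        (∀ x ∈ A, ∀ y ∈ A, x ≠ y → ∀ u ∈ vs (D x), ∀ w ∈ vs (D y), G.dist u w ≤ r4 →
          cl x = cl y ∧ G.dist u (z x) ≤ ρ) ∧
        (∀ x ∈ B, ∀ u ∈ vs (D x), ∀ w ∈ vs Th, r4 < G.dist u w) ∧
        (∀ x ∈ B, ∀ y ∈ A ∪ B, y ≠ x → ∀ u ∈ vs (D x), ∀ w ∈ vs (D y), r4 < G.dist u w)

/-- 4.7 (owner helper14): planted circuits.  `F y` is `CC_y` for the thick `y ∈ Y`. -/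
def PlantStatement : Prop :=
  ∀ (V : Type) [Fintype V] (G : SimpleGraph V), G.Connected →
    (∀ v, (G.neighborSet v).ncard = 3) →
    ∀ (L r r4 s K : ℕ) (Λ LT : ℝ) (GG : Finset (Finset (Sym2 V))) (μ : Finset (Sym2 V) → ℝ)
      (Th C C1 C2 : Finset (Sym2 V)) (e1 e2 : Sym2 V), Tri G L r GG Th C C1 C2 e1 e2 →
      Mu G r Λ GG μ →
    ∀ (X : Type) (I : Finset X) (D : X → Finset (Sym2 V)) (U : Finset V),
      (∀ x ∈ I, D x ∈ GG) → I.card ≤ s → U.card ≤ 4 * L + 2 * L * s →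
    ∀ (Y : Type) (J : Finset Y) (F : Y → Finset (Finset (Sym2 V))),
      J.card ≤ K * Fintype.card V → (∀ y ∈ J, F y ⊆ GG) →
      (∀ y ∈ J, LT / Fintype.card V ≤ ∑ D ∈ F y, μ D) →
      1 ≤ Λ → 1 ≤ L → r4 < r → 4 ≤ lam (Fintype.card V) → 100 * K ≤ Fintype.card V →
      ((4 * L + 2 * L * s : ℕ) : ℝ) ^ 2 * Λ * (1 / 2) ^ ((r4 + 1) / 2) + 2 * Λ ≤ LT / 8 →
      1000 * L * Λ * lam (Fintype.card V) ≤ LT →
      (s : ℝ) * (100 * L * Λ * lam (Fintype.card V)) ^ 2 ≤ LT ^ 2 →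
      ∃ P : Finset (Finset (Sym2 V)), PP G r4 GG e1 e2 U I D P ∧ ∀ y ∈ J, ∃ D' ∈ P, D' ∈ F y

/-- all numerical inequalities needed in section C -/
structure Num (K N κ a : ℕ) (Cs : ℝ) (n : ℕ) (s Rm r1 r2 tc r4 ρ : ℕ)
    (LT ε0 ε2 ε3 η η' : ℝ) : Prop where
  lam4 : 4 ≤ lam n
  nK : 100 * K ≤ n
  /- positivity -/
  ε0pos : 0 < ε0
  ε2pos : 0 < ε2
  ε3pos : 0 < ε3
  LTpos : 0 < LT
  /- classes -/
  ηη' : 2 * η < η'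
  ε3η : ε3 = η / 2
  ε3ε2 : 3 * ε3 ≤ ε2
  r1r : r1 < rr n
  class_diam : (lam n : ℝ) ^ a * (1 / 2) ^ ((r1 + 1) / 2) < η' - η
  Rmax : 2 * LL n * LT / η' ≤ Rm
  tcr2 : tc ≤ r2
  /- events -/
  κ1 : 1 ≤ κ
  κC : 4 * Cs * K ≤ κ
  evb : (N : ℝ) ^ 2 * K * ε0 ≤ 1 / 20
  evc : (N : ℝ) ^ 2 * K * LT ≤ s / 20
  eve : (N : ℝ) ^ 2 * K * (2 * LL n * LT / ε3) ^ 2 * ((lam n : ℝ) ^ a * (1 / 2) ^ (rr n / 2)) ≤
    1 / 100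
  evf : (N : ℝ) ^ 2 * K * (6 * LL n * LT / ε2) * η' ≤ 1 / 100
  evg : (N : ℝ) ^ 2 * K * (2 * LL n * LT / η') ^ 2 * η ≤ 1 / 100
  /- 4.5 -/
  sel : ρ + 2 * tc + 5 ≤ rr n
  sel' : ((s : ℝ) * Rm) ^ 2 * (1 - (1 / 4 : ℝ) ^ (3 * κ)) ^ (ρ / (tc + 1)) < 1
  /- 4.6, with `r3 = r2 + tc`, `T0 = Λ / ε3`, `ε = ε2 / ε0` -/
  r4tc : r4 ≤ tc
  r3ρ : r2 + tc ≤ ρ + r4
  ρr : ρ ≤ rr n
  law1 : (s : ℝ) * (4 * LL n) * (3 * 2 ^ r4) *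
    ((lam n : ℝ) ^ a / ε3 * (1 / 2) ^ ((r2 + tc - r4) / 2)) ≤ 1 / 4
  law2 : (s : ℝ) ^ 2 * (2 * (2 * LL n)) * (3 * 2 ^ r4) *
    ((lam n : ℝ) ^ a / ε3 * (1 / 2) ^ ((tc - r4) / 4)) ≤ 1 / 4
  law3 : (s : ℝ) * (3 * 2 ^ r4) * (ε2 / ε0) * (4 * LL n + 2 * LL n * s) ≤ 1 / 4
  /- 4.7 -/
  r4r : r4 < rr n
  pl1 : ((4 * LL n + 2 * LL n * s : ℕ) : ℝ) ^ 2 * (lam n : ℝ) ^ a * (1 / 2) ^ ((r4 + 1) / 2) +
    2 * (lam n : ℝ) ^ a ≤ LT / 8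
  pl2 : 1000 * LL n * (lam n : ℝ) ^ a * lam n ≤ LT
  pl3 : (s : ℝ) * (100 * LL n * (lam n : ℝ) ^ a * lam n) ^ 2 ≤ LT ^ 2
  /- 4.8 -/
  r4_pos : 1 ≤ r4
  tree : r2 + tc + ρ + ρ + r4 ≤ rr n
  treeL : 4 * (ρ + r4) + 5 < LL n

/-- Ramsey's theorem for triangles in the form used in 4.3 -/
def RamseyN (N m : ℕ) : Prop :=
  ∀ I : Finset (Fin N), N ≤ 2 * I.card →
    ∀ f : Fin N → Fin N → Finset (Fin m) × Finset (Fin m),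
      ∃ i ∈ I, ∃ j ∈ I, ∃ k ∈ I, i < j ∧ j < k ∧ f i j = f i k ∧ f j k = f i k

/-- 4.1-4.4 (owner helper37): events, Ramsey, case analysis. -/
def CoreStatement : Prop :=
  ∀ (K N κ a : ℕ) (Cs : ℝ) (s Rm r1 r2 tc r4 ρ : ℕ) (LT ε0 ε2 ε3 η η' : ℝ),
    1 ≤ N → RamseyN N (2 * κ) →
    ∀ (V : Type) [Fintype V] (G : SimpleGraph V), G.Connected →
      (∀ v, (G.neighborSet v).ncard = 3) →
      Num K N κ a Cs (Fintype.card V) s Rm r1 r2 tc r4 ρ LT ε0 ε2 ε3 η η' →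
    ∀ (Ω : Type) [Fintype Ω] (Ω₀ : Finset Ω) (Q : Ω → Fin N → Finset (Sym2 V))
      (e : Ω → Fin N → Sym2 V) (C : Ω → Fin N → Fin N → Finset (Sym2 V))
      (GG : Finset (Finset (Sym2 V))) (μ : Finset (Sym2 V) → ℝ),
      IsStr G N (LL (Fintype.card V)) (rr (Fintype.card V)) Cs ((lam (Fintype.card V) : ℝ) ^ a)
        Ω₀ Q e C GG μ →
    ∀ (M : ℕ) (σ : Finset (Sym2 V) → Finset (Fin M)), M ≤ K * Fintype.card V →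
      ∃ (Th C C1 C2 : Finset (Sym2 V)) (e1 e2 : Sym2 V) (A A3 B : Finset (Fin M))
        (Z : Fin M → Finset V),
        Tri G (LL (Fintype.card V)) (rr (Fintype.card V)) GG Th C C1 C2 e1 e2 ∧
        Disjoint A B ∧ A.card + B.card ≤ s ∧
        Cand G (rr (Fintype.card V)) r2 tc (3 * κ) Th A A3 Z ∧
        (∀ x ∈ A3, (Z x).card ≤ Rm) ∧
        (∀ x ∈ A, ∀ z ∈ Z x, ∃ S f, (∀ D ∈ S, D ∈ GG ∧ x ∈ σ D) ∧
          LawA G (rr (Fintype.card V)) ((lam (Fintype.card V) : ℝ) ^ a / ε3) e1 e2 z S f) ∧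
        (∀ x ∈ B, ∃ S f, (∀ D ∈ S, D ∈ GG ∧ x ∈ σ D) ∧ LawB (ε2 / ε0) S f) ∧
        (∀ x ∈ σ C, LT / Fintype.card V ≤ ∑ D ∈ GG.filter (fun D => x ∈ σ D), μ D ∨
          x ∈ A ∨ x ∈ B ∨ x ∈ σ C1 ∨ x ∈ σ C2)

/-- numerics (owner helper37) -/
def NumStatement : Prop :=
  ∀ (K N κ a : ℕ) (Cs : ℝ), 1 ≤ K → 1 ≤ N → 1 ≤ κ → 4 * Cs * K ≤ κ →
    ∃ n0 : ℕ, ∀ n ≥ n0, ∃ (s Rm r1 r2 tc r4 ρ : ℕ) (LT ε0 ε2 ε3 η η' : ℝ),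
      Num K N κ a Cs n s Rm r1 r2 tc r4 ρ LT ε0 ε2 ε3 η η'

def RamseyStatement : Prop := ∀ m : ℕ, ∃ N : ℕ, 1 ≤ N ∧ RamseyN N m

end Pool.Agent.Lib.MP_fce888_co
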